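import Pool.Agent.W78.GS.Basic
import Pool.Agent.W638.GR.Dec6

/-!
Project GS (helper78), task GS-5: the decomposition, real case (port of W638/GR/Dec1, Dec4, Dec5,
Dec6 to an arbitrary completely multiplicative function with values 1, -1).
-/

set_option autoImplicit false

namespace Pool.Agent.W125.GS.R

open Finset Filter
open Pool.Agent.H376R2.MR hiding GG Sm
open Pool.Agent.W78.GR hiding GG PE S_DEC
open Pool.Agent.W78.GS (Pm)
open Pool.Agent.W78.GS.R (GG PE S_DEC)
open Pool.Agent.W638.GA (nat_mul_re nat_mul_im gcd_mul_prim nat_mul_cancel content_unique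
  sum_inv_sq_le sm_one sm_prime sm_mul sm_dvd lat_of_lat mert_range cellM_facts cellM_disj
  fibre_bound erase_sum_le)
open Pool.Agent.W638.GR (tp_of_mul content_exists bg_zero imprim star_not_lat lat_of_content
  win_lat win_two win_two' dT ele_facts)

variable {g : ℕ → ℤ} {t c : ℤ} {η : (Qd t c)ˣ}

/-- value of the term of content `n` -/
noncomputable def Vg (g : ℕ → ℤ) (m n : ℕ) (lZ : ℝ) (z : Qd t c) : ℝ :=
  (g (nm z) : ℝ) * w (Real.log (nm z) + 2 * Real.log n - Real.log m - lZ) / (n : ℝ) ^ 2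

/-- the value of the term of content `n` at the representative -/
theorem term_value (hg : Pm g) (U : Un t c η) {a : Qd t c} (ha : tp a)
    {Z : ℝ} {u z : Qd t c} (hu : tp u) (hz : tp z) {n : ℕ} (hn0 : 0 < n) (j : ℤ)
    (he : a * u = (n : Qd t c) * (((η ^ j : (Qd t c)ˣ) : Qd t c) * z)) :
    Real.log (nm u) = Real.log (nm z) + 2 * Real.log n - Real.log (nm a) ∧
    (nm a : ℝ) * nm u = (n : ℝ) ^ 2 * nm z ∧
    ∀ k : ℤ, ((g (nm a) : ℂ) / ((nm a : ℕ) : ℂ)) * ((g (nm u) : ℂ) * (bg Z u : ℂ)) *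
      ps η k (a * u) = ((Vg g (nm a) n (Real.log Z) z / nm z : ℝ) : ℂ) * ps η k z := by
  have hd := U.disc
  have hmR : (0 : ℝ) < nm a := nm_posR hd ha
  have hmC : ((nm a : ℕ) : ℂ) ≠ 0 := by exact_mod_cast hmR.ne'
  have hN : (0 : ℝ) < nm z := nm_posR hd hz
  have hNc : ((nm z : ℕ) : ℂ) ≠ 0 := by exact_mod_cast hN.ne'
  have hnR : (0 : ℝ) < n := by exact_mod_cast hn0
  have hnC : (n : ℂ) ≠ 0 := by exact_mod_cast hn0.ne'
  have hjz : tp (((η ^ j : (Qd t c)ˣ) : Qd t c) * z) := (U.tp_zpow_mul j).2 hz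
  have hNu : (0 : ℝ) < nm u := nm_posR hd hu
  have hNuc : ((nm u : ℕ) : ℂ) ≠ 0 := by exact_mod_cast hNu.ne'
  have h2 : nm a * nm u = n ^ 2 * nm z := by
    rw [← nm_mul, he, nm_mul, nm_natCast, Un.nm_zpow_mul]
  have h3 : (nm a : ℝ) * nm u = (n : ℝ) ^ 2 * nm z := by exact_mod_cast h2
  have h3c : ((nm a : ℕ) : ℂ) * ((nm u : ℕ) : ℂ) = (n : ℂ) ^ 2 * ((nm z : ℕ) : ℂ) := by
    exact_mod_cast h2
  have hlog : Real.log (nm u) = Real.log (nm z) + 2 * Real.log n - Real.log (nm a) := by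
    have := congrArg Real.log h3
    rw [Real.log_mul hmR.ne' hNu.ne', Real.log_mul (by positivity) hN.ne', Real.log_pow] at this
    push_cast at this
    linarith
  have hgl : (g (nm a) : ℂ) * (g (nm u) : ℂ) = (g (nm z) : ℂ) := by
    have h4 : g (nm (a * u)) = g (nm a) * g (nm u) := by
      rw [nm_mul, hg.mul (nm_pos hd ha).ne' (nm_pos hd hu).ne']
    have h5 : g (nm (a * u)) = g (nm z) := by
      rw [he, nm_mul, nm_natCast, hg.sq_mul hn0.ne' (nm_pos hd hjz).ne', Un.nm_zpow_mul]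
    rw [h5] at h4
    rw [h4]
    push_cast
    ring
  refine ⟨hlog, h3, fun k => ?_⟩
  have hps : ps η k (a * u) = ps η k z := by
    rw [he, ps_mul hd k (tp_natCast hn0) hjz, ps_natCast hn0, one_mul, U.ps_zpow_mul j k hz]
  rw [hps]
  unfold bg Vg
  rw [hlog]
  push_cast
  have hdd : (1 / ((nm a : ℕ) : ℂ)) / ((nm u : ℕ) : ℂ) =
      1 / (n : ℂ) ^ 2 / ((nm z : ℕ) : ℂ) := by
    rw [div_div, div_div, h3c]
  linear_combination ((g (nm z) : ℂ) * ((w (Real.log (nm z) + 2 * Real.log n -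
    Real.log (nm a) - Real.log Z) : ℝ) : ℂ) * ps η k z) * hdd +
    ((1 / ((nm a : ℕ) : ℂ)) / ((nm u : ℕ) : ℂ) * ((w (Real.log (nm z) + 2 * Real.log n -
    Real.log (nm a) - Real.log Z) : ℝ) : ℂ) * ps η k z) * hgl

open scoped Classical in
/-- the product of one element with `G`, sorted by the content -/
theorem one_term (hg : Pm g) (U : Un t c η) {a : Qd t c} (ha : tp a)
    {Z : ℝ} (hZ : 0 < Z) {D : Finset (Qd t c)}
    (hDD : ∀ z : Qd t c, fd η z → prim z → (nm z : ℝ) ≤ nm a * (Real.exp 1 * Z) → z ∈ D)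
    (hDp : ∀ z ∈ D, fd η z ∧ prim z) (k : ℤ) :
    (g (nm a) : ℂ) * ps η k a / ((nm a : ℕ) : ℂ) * GG g η Z k =
      ∑ z ∈ D, ((∑ n ∈ (nm a).divisors, (if ∃ u : Qd t c, prim u ∧ a * u = (n : Qd t c) * z then
        Vg g (nm a) n (Real.log Z) z else 0) / nm z : ℝ) : ℂ) * ps η k z := by
  have hd := U.disc
  have hm0 : 0 < nm a := nm_pos hd ha
  have hmR : (0 : ℝ) < nm a := nm_posR hd ha
  have ha0 := tp_ne_zero ha
  set P := pball η (Real.exp 1 * Z) with hP
  set F : Qd t c → ℂ := fun u => ((g (nm a) : ℂ) / ((nm a : ℕ) : ℂ)) * ((g (nm u) : ℂ) * (bg Z u : ℂ)) *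
    ps η k (a * u) with hF
  have e1 : (g (nm a) : ℂ) * ps η k a / ((nm a : ℕ) : ℂ) * GG g η Z k = ∑ u ∈ P, F u := by
    unfold GG DPG
    rw [Finset.mul_sum]
    refine Finset.sum_congr rfl fun u hu => ?_
    have hut : tp u := (U.mem_pball.1 hu).1.1
    simp only [hF]
    rw [ps_mul hd k ha hut]
    ring
  have e2 : ∑ u ∈ P, F u = ∑ z ∈ D, ∑ n ∈ (nm a).divisors, ∑ u ∈ P,
      (if ∃ j : ℤ, a * u = (n : Qd t c) * (((η ^ j : (Qd t c)ˣ) : Qd t c) * z) then F u else 0) := by
    have h1 : ∀ u ∈ P, F u = ∑ z ∈ D, ∑ n ∈ (nm a).divisors,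
        (if ∃ j : ℤ, a * u = (n : Qd t c) * (((η ^ j : (Qd t c)ˣ) : Qd t c) * z) then F u
          else 0) := by
      intro u hu
      rw [hP, U.mem_pball] at hu
      obtain ⟨n, hn, z', hz', he'⟩ := content_exists hd ha hu.1.1 hu.2.1
      have hn0 : 0 < n := Nat.pos_of_mem_divisors hn
      have hnR : (1 : ℝ) ≤ n := by exact_mod_cast hn0
      have hz't : tp z' := by
        apply tp_of_mul hd (tp_natCast (t := t) (c := c) hn0)
        rw [← he']
        exact tp_mul hd ha hu.1.1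
      set z := rep η z' with hz
      have hzf : fd η z := U.rep_fd hz't
      have hzp : prim z := Un.prim_rep.2 hz'
      have hnz : nm z = nm z' := Un.nm_rep z'
      have hzz : z' = (((η ^ (-(ex η z')) : (Qd t c)ˣ) : Qd t c) * z) := by
        rw [hz]
        unfold rep
        rw [← mul_assoc, ← Units.val_mul, ← zpow_add, neg_add_cancel, zpow_zero, Units.val_one,
          one_mul]
      have hex : ∃ j : ℤ, a * u = (n : Qd t c) * (((η ^ j : (Qd t c)ˣ) : Qd t c) * z) :=
        ⟨-(ex η z'), by rw [← hzz]; exact he'⟩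
      have hzD : z ∈ D := by
        apply hDD z hzf hzp
        have h2 : nm a * nm u = n ^ 2 * nm z := by
          rw [← nm_mul, he', nm_mul, nm_natCast, hnz]
        have h3 : (nm a : ℝ) * nm u = (n : ℝ) ^ 2 * nm z := by exact_mod_cast h2
        have h4 : (0 : ℝ) ≤ nm z := Nat.cast_nonneg _
        have h5 : (1 : ℝ) ≤ (n : ℝ) ^ 2 := one_le_pow₀ hnR
        calc (nm z : ℝ) ≤ (n : ℝ) ^ 2 * nm z := le_mul_of_one_le_left h4 h5
          _ = nm a * nm u := h3.symm
          _ ≤ nm a * (Real.exp 1 * Z) := mul_le_mul_of_nonneg_left hu.2.2 hmR.le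
      have huniq : ∀ z'' ∈ D, ∀ n' : ℕ,
          (∃ j : ℤ, a * u = (n' : Qd t c) * (((η ^ j : (Qd t c)ˣ) : Qd t c) * z'')) →
          n' = n ∧ z'' = z := by
        intro z'' hz'' n' hj
        obtain ⟨j, hj⟩ := hj
        obtain ⟨h1, h2⟩ := hDp z'' hz''
        rw [he'] at hj
        obtain ⟨h3, h4⟩ := content_unique hz' (prim_zpow_mul j |>.2 h2) hn0.ne' hj
        refine ⟨h3.symm, ?_⟩
        rw [hz, h4, U.rep_zpow_mul j h1.1, U.rep_eq_self h1]
      rw [Finset.sum_eq_single_of_mem z hzD, Finset.sum_eq_single_of_mem n hn]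
      · rw [if_pos hex]
      · intro n' hn' hne
        rw [if_neg]
        intro h
        exact hne (huniq z hzD n' h).1
      · intro z'' hz'' hne
        refine Finset.sum_eq_zero fun n' hn' => ?_
        rw [if_neg]
        intro h
        exact hne (huniq z'' hz'' n' h).2
    rw [Finset.sum_congr rfl h1, Finset.sum_comm]
    refine Finset.sum_congr rfl fun z _ => ?_
    rw [Finset.sum_comm]
  rw [e1, e2]
  refine Finset.sum_congr rfl fun z hz => ?_
  obtain ⟨hzf, hzp⟩ := hDp z hz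
  push_cast
  rw [Finset.sum_mul]
  refine Finset.sum_congr rfl fun n hn => ?_
  have hn0 : 0 < n := Nat.pos_of_mem_divisors hn
  have hnz : tp ((n : Qd t c) * z) := tp_mul hd (tp_natCast hn0) hzf.1
  by_cases hex : ∃ u : Qd t c, prim u ∧ a * u = (n : Qd t c) * z
  · obtain ⟨u', hu', he'⟩ := hex
    rw [if_pos ⟨u', hu', he'⟩]
    have hut' : tp u' := by
      apply tp_of_mul hd ha
      rw [he']
      exact hnz
    set u := rep η u' with hu
    have huf : fd η u := U.rep_fd hut'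
    have hup : prim u := Un.prim_rep.2 hu'
    have he : a * u = (n : Qd t c) * (((η ^ (ex η u') : (Qd t c)ˣ) : Qd t c) * z) := by
      have h1 : a * u = ((η ^ (ex η u') : (Qd t c)ˣ) : Qd t c) * (a * u') := by
        rw [hu]
        unfold rep
        ring
      rw [h1, he']
      ring
    have huniq : ∀ u'' ∈ P,
        (∃ j : ℤ, a * u'' = (n : Qd t c) * (((η ^ j : (Qd t c)ˣ) : Qd t c) * z)) → u'' = u := by
      intro u'' hu'' hj
      obtain ⟨j, hj⟩ := hj
      rw [hP, U.mem_pball] at hu''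
      have h1 : a * u'' = a * (((η ^ j : (Qd t c)ˣ) : Qd t c) * u') := by
        have h2 : a * (((η ^ j : (Qd t c)ˣ) : Qd t c) * u') =
            ((η ^ j : (Qd t c)ˣ) : Qd t c) * (a * u') := by ring
        rw [h2, he', hj]
        ring
      have h2 := mul_cancel U.nsq ha0 h1
      rw [hu, ← U.rep_eq_self hu''.1, h2, U.rep_zpow_mul j hut']
    obtain ⟨hlog, -, hval⟩ := term_value (Z := Z) hg U ha huf.1 hzf.1 hn0 _ he
    by_cases hin : u ∈ P
    · rw [Finset.sum_eq_single_of_mem u hin, if_pos ⟨_, he⟩]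
      · simp only [hF]
        rw [hval k]
        push_cast
        ring
      · intro u'' hu'' hne
        rw [if_neg]
        intro h
        exact hne (huniq u'' hu'' h)
    · have hw : w (Real.log (nm u) - Real.log Z) = 0 := by
        apply bg_zero hd hZ huf.1
        intro h
        apply hin
        rw [hP, U.mem_pball]
        exact ⟨huf, hup, h⟩
      rw [Finset.sum_eq_zero]
      · unfold Vg
        rw [← hlog, hw]
        simp
      · intro u'' hu''
        rw [if_neg]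
        intro h
        rw [huniq u'' hu'' h] at hu''
        exact hin hu''
  · rw [if_neg hex, Finset.sum_eq_zero]
    · simp
    · intro u hu
      rw [if_neg]
      rintro ⟨j, hj⟩
      rw [hP, U.mem_pball] at hu
      apply hex
      refine ⟨((η ^ (-j) : (Qd t c)ˣ) : Qd t c) * u, (prim_zpow_mul _).2 hu.2.1, ?_⟩
      have h1 : a * (((η ^ (-j) : (Qd t c)ˣ) : Qd t c) * u) =
          ((η ^ (-j) : (Qd t c)ˣ) : Qd t c) * (a * u) := by ring
      have h2 : ((η ^ (-j) : (Qd t c)ˣ) : Qd t c) * ((η ^ j : (Qd t c)ˣ) : Qd t c) = 1 := by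
        rw [← Units.val_mul, ← zpow_add, neg_add_cancel, zpow_zero, Units.val_one]
      rw [h1, hj]
      linear_combination ((n : Qd t c) * z) * h2

variable {Ap Bp M : ℕ → Prop} {E : ℕ} {ρ : ℕ → ℤ} {ϖ : ℕ → Qd t c}

open scoped Classical in
/-- the contribution of the non-primitive products -/
noncomputable def dB (g : ℕ → ℤ) (M : ℕ → Prop) (ϖ : ℕ → Qd t c) (H v₀ v₁ : ℕ) (Y : ℝ) (z : Qd t c) : ℝ :=
  ∑ v ∈ Ico v₀ v₁, ∑ m ∈ cellM M H v, ∑ n ∈ m.divisors.erase 1,
    if ∃ u : Qd t c, prim u ∧ ϖ m * u = (n : Qd t c) * z then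
      Vg g m n (Real.log Y - (v : ℝ) / H) z else 0

theorem GG_eq (U : Un t c η) {Y : ℝ} (hY : 0 < Y) (k : ℤ) :
    GG g η Y k = ∑ z ∈ pball η (Real.exp 2 * Y),
      ((((g (nm z) : ℝ) * w (Real.log (nm z) - Real.log Y)) / nm z : ℝ) : ℂ) * ps η k z := by
  unfold GG DPG
  have h12 : Real.exp 1 * Y ≤ Real.exp 2 * Y :=
    mul_le_mul_of_nonneg_right (Real.exp_le_exp.2 (by norm_num)) hY.le
  refine Finset.sum_congr_of_eq_on_inter ?_ ?_ ?_
  · intro z hz hz'
    exfalso
    rw [U.mem_pball] at hz hz'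
    exact hz' ⟨hz.1, hz.2.1, hz.2.2.trans h12⟩
  · intro z hz hz'
    rw [U.mem_pball] at hz hz'
    rw [bg_zero U.disc hY hz.1.1 (fun h => hz' ⟨hz.1, hz.2.1, h⟩)]
    simp
  · intro z _ _
    unfold bg
    push_cast
    ring

theorem sum_eq (hg : Pm g) (U : Un t c η) (he : Ele t c Ap Bp M E ρ ϖ) {H v₀ v₁ : ℕ} (hH : 1 ≤ H)
    {Y : ℝ} (hY : 0 < Y) (k : ℤ) :
    ∑ v ∈ Ico v₀ v₁, PE g η M ϖ H v k * GG g η (Y * Real.exp (-((v : ℝ) / H))) k =
      -∑ z ∈ pball η (Real.exp 2 * Y),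
        ((((g (nm z) : ℝ) * dT M ϖ H v₀ v₁ Y z + dB g M ϖ H v₀ v₁ Y z) / nm z : ℝ) : ℂ) * ps η k z := by
  classical
  have hH0 : (0 : ℝ) < H := by exact_mod_cast hH
  have h1 : ∀ v ∈ Ico v₀ v₁, PE g η M ϖ H v k * GG g η (Y * Real.exp (-((v : ℝ) / H))) k =
      -∑ z ∈ pball η (Real.exp 2 * Y), ∑ m ∈ cellM M H v,
        ((((g (nm z) : ℝ) * (if ϖ m ∣ z then
          w (Real.log (nm z) - Real.log Y - (Real.log m - (v : ℝ) / H)) else 0) +
          ∑ n ∈ m.divisors.erase 1,
            (if ∃ u : Qd t c, prim u ∧ ϖ m * u = (n : Qd t c) * z then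
              Vg g m n (Real.log Y - (v : ℝ) / H) z else 0)) / nm z : ℝ) : ℂ) * ps η k z := by
    intro v _
    unfold PE
    rw [neg_mul, Finset.sum_mul, Finset.sum_comm]
    congr 1
    refine Finset.sum_congr rfl fun m hm => ?_
    obtain ⟨hmM, hm1, hm2⟩ := cellM_facts hm
    obtain ⟨-, -, hmpos, hϖ⟩ := ele_facts he hmM
    have hn := (he.elt m hmM).1
    have hm0 : (0 : ℝ) < m := by exact_mod_cast hmpos
    set Z : ℝ := Y * Real.exp (-((v : ℝ) / H)) with hZ
    have hZ0 : 0 < Z := by positivity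
    have hlogZ : Real.log Z = Real.log Y - (v : ℝ) / H := by
      rw [hZ, Real.log_mul hY.ne' (Real.exp_pos _).ne', Real.log_exp]; ring
    have hmZ : (m : ℝ) * (Real.exp 1 * Z) ≤ Real.exp 2 * Y := by
      have h5 : (m : ℝ) ≤ Real.exp (1 + (v : ℝ) / H) := by
        rw [← Real.log_le_iff_le_exp hm0]
        have h3 : ((v : ℝ) + 1) / H = (v : ℝ) / H + 1 / H := by ring
        have h4 : (1 : ℝ) / H ≤ 1 := by
          rw [div_le_one hH0]; exact_mod_cast hH
        linarith
      calc (m : ℝ) * (Real.exp 1 * Z) ≤ Real.exp (1 + (v : ℝ) / H) * (Real.exp 1 * Z) :=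
            mul_le_mul_of_nonneg_right h5 (by positivity)
        _ = Real.exp 2 * Y := by
            rw [hZ]
            have : Real.exp (1 + (v : ℝ) / H) * (Real.exp 1 * (Y * Real.exp (-((v : ℝ) / H)))) =
              (Real.exp (1 + (v : ℝ) / H) * Real.exp 1 * Real.exp (-((v : ℝ) / H))) * Y := by ring
            rw [this, ← Real.exp_add, ← Real.exp_add]
            congr 2
            ring
    have h2 := one_term hg U hϖ hZ0 (D := pball η (Real.exp 2 * Y))
      (by
        intro z hzf hz hz2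
        rw [hn] at hz2
        rw [U.mem_pball]
        exact ⟨hzf, hz, hz2.trans hmZ⟩)
      (fun z hz => ⟨((U.mem_pball).1 hz).1, ((U.mem_pball).1 hz).2.1⟩) k
    rw [hn] at h2
    rw [h2]
    refine Finset.sum_congr rfl fun z hz => ?_
    rw [U.mem_pball] at hz
    congr 2
    have h1m : 1 ∈ m.divisors := by
      rw [Nat.mem_divisors]
      exact ⟨one_dvd _, by omega⟩
    rw [← Finset.sum_div, ← Finset.add_sum_erase _ _ h1m, hlogZ]
    congr 2
    have hiff : (∃ u : Qd t c, prim u ∧ ϖ m * u = ((1 : ℕ) : Qd t c) * z) ↔ ϖ m ∣ z := by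
      constructor
      · rintro ⟨u, -, hu⟩
        rw [Nat.cast_one, one_mul] at hu
        exact ⟨u, hu.symm⟩
      · rintro ⟨u, rfl⟩
        refine ⟨u, prim_of_dvd hz.2.1 (Dvd.intro_left _ rfl), ?_⟩
        rw [Nat.cast_one, one_mul]
    by_cases hd : ϖ m ∣ z
    · rw [if_pos (hiff.2 hd), if_pos hd]
      unfold Vg
      rw [Nat.cast_one, Real.log_one]
      have e1 : Real.log (nm z) + 2 * 0 - Real.log m - (Real.log Y - (v : ℝ) / H) =
        Real.log (nm z) - Real.log Y - (Real.log m - (v : ℝ) / H) := by ring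
      rw [e1]
      ring
    · rw [if_neg (fun h => hd (hiff.1 h)), if_neg hd, mul_zero]
  rw [Finset.sum_congr rfl h1, Finset.sum_neg_distrib, Finset.sum_comm]
  congr 1
  refine Finset.sum_congr rfl fun z _ => ?_
  rw [← Finset.sum_congr rfl (fun v _ => Finset.sum_mul _ _ _), ← Finset.sum_mul]
  congr 1
  unfold dT dB
  rw [Finset.mul_sum, ← Finset.sum_add_distrib, Finset.sum_div]
  push_cast
  refine Finset.sum_congr rfl fun v _ => ?_
  rw [Finset.mul_sum, ← Finset.sum_add_distrib, Finset.sum_div]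

open scoped Classical in
/-- one term of the contribution of the non-primitive products -/
theorem dB_term (hg : Pm g) (U : Un t c η) {H v m n : ℕ} (hH : 1 ≤ H) (hm : m ∈ cellM M H v)
    (hn : n ≠ 0) {Y : ℝ} (hY : 0 < Y) {z : Qd t c} (hz : fd η z) {J : Prop}
    (hl : ∀ u : Qd t c, ϖ m * u = (n : Qd t c) * z → J) :
    |if ∃ u : Qd t c, prim u ∧ ϖ m * u = (n : Qd t c) * z then
      Vg g m n (Real.log Y - (v : ℝ) / H) z else 0| ≤
      if z ∈ win η (Y / (n : ℝ) ^ 2) ∧ J then 1 / (n : ℝ) ^ 2 else 0 := by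
  have hN : (0 : ℝ) < nm z := nm_posR U.disc hz.1
  have hn0 : (0 : ℝ) < n := by exact_mod_cast Nat.pos_of_ne_zero hn
  have hH0 : (0 : ℝ) < H := by exact_mod_cast hH
  obtain ⟨-, hm1, hm2⟩ := cellM_facts hm
  by_cases hex : ∃ u : Qd t c, prim u ∧ ϖ m * u = (n : Qd t c) * z
  · rw [if_pos hex]
    obtain ⟨u, -, hu⟩ := hex
    have hlat := hl u hu
    by_cases hin : z ∈ win η (Y / (n : ℝ) ^ 2)
    · rw [if_pos ⟨hin, hlat⟩]
      unfold Vg
      rw [abs_div, abs_mul, abs_of_pos (by positivity : (0:ℝ) < (n:ℝ)^2)]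
      apply div_le_div_of_nonneg_right _ (by positivity)
      have h1 : |(g (nm z) : ℝ)| ≤ 1 := by
        rcases hg.val (nm z) with h | h <;> rw [h] <;> simp
      have h2 : |w (Real.log (nm z) + 2 * Real.log n - Real.log m -
          (Real.log Y - (v : ℝ) / H))| ≤ 1 := by
        rw [abs_of_nonneg (dec_w_nonneg _)]; exact dec_w_le _
      exact mul_le_one₀ h1 (abs_nonneg _) h2
    · have hw : w (Real.log (nm z) + 2 * Real.log n - Real.log m -
          (Real.log Y - (v : ℝ) / H)) = 0 := by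
        apply dec_w_zero
        by_contra hcon
        rw [not_le, abs_lt] at hcon
        obtain ⟨ha, hb'⟩ := hcon
        apply hin
        have h3 : ((v : ℝ) + 1) / H = (v : ℝ) / H + 1 / H := by ring
        have h4 : (1 : ℝ) / H ≤ 1 := by
          rw [div_le_one hH0]; exact_mod_cast hH
        have hlz : Real.log (Y / (n:ℝ)^2) = Real.log Y - 2 * Real.log n := by
          rw [Real.log_div hY.ne' (by positivity), Real.log_pow]; push_cast; ring
        rw [U.mem_win]
        refine ⟨hz, ?_, ?_⟩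
        · rw [← Real.log_le_log_iff (by positivity) hN,
            Real.log_div (by positivity) (Real.exp_pos 2).ne', Real.log_exp, hlz]
          linarith
        · rw [← Real.log_le_log_iff hN (by positivity),
            Real.log_mul (Real.exp_pos 2).ne' (by positivity), Real.log_exp, hlz]
          linarith
      unfold Vg
      rw [hw]
      simp only [mul_zero, zero_div, abs_zero]
      split_ifs <;> positivity
  · rw [if_neg hex, abs_zero]
    split_ifs <;> positivity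

/-- the mean square of the contribution of the non-primitive products -/
theorem dB_mean (hg : Pm g) (U : Un t c η) (hI : S_LATI t c η) (he : Ele t c Ap Bp M E ρ ϖ) :
    ∃ K : ℝ, 0 < K ∧ ∀ (H v₀ v₁ : ℕ), 1 ≤ H → ∀ Y : ℝ, 0 < Y →
      ∑ z ∈ pball η (Real.exp 2 * Y), Y * (dB g M ϖ H v₀ v₁ Y z) ^ 2 / (nm z : ℝ) ^ 2 ≤
        K * ∑ v ∈ Ico v₀ v₁, mE M H v := by
  classical
  obtain ⟨C, hC, hw⟩ := win_lat U hI
  obtain ⟨C₂, hC₂, hR⟩ := mert_range E he.pos
  have hC₂0 : 0 ≤ C₂ := by linarith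
  have hfac := he.fac
  choose! pA pB h1 h2 h3 h4 h5 using hfac
  set K₀ : ℝ := Real.exp 2 * C * (Real.exp 6 * (C₂ + 1)) with hK₀
  refine ⟨9 * K₀, by positivity, ?_⟩
  intro H v₀ v₁ hH Y hY
  set S : Finset ℕ := (Ico v₀ v₁).biUnion (cellM M H) with hS
  have hdisj : Set.PairwiseDisjoint (↑(Ico v₀ v₁) : Set ℕ) (cellM M H) := by
    intro v _ v' _ hne
    rw [Function.onFun, Finset.disjoint_left]
    intro p hp hp'
    exact hne (cellM_disj hH hp hp')
  have hWS : ∑ m ∈ S, 1 / (m : ℝ) = ∑ v ∈ Ico v₀ v₁, mE M H v := by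
    rw [hS, Finset.sum_biUnion hdisj]; rfl
  have hSM : ∀ m ∈ S, M m := by
    intro m hm
    rw [hS, mem_biUnion] at hm
    obtain ⟨v, _, hm⟩ := hm
    exact (cellM_facts hm).1
  set D := pball η (Real.exp 2 * Y) with hDdef
  have hDfd : ∀ z ∈ D, fd η z := by
    intro z hz
    rw [hDdef, U.mem_pball] at hz
    exact hz.1
  have hDne : ∀ z ∈ D, tp z := fun z hz => (hDfd z hz).1
  have hcop : ∀ a b : ℕ, a.Prime → b.Prime → a = b ∨ a.Coprime b := by
    intro a b ha hb
    by_cases hab : a = b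
    · exact Or.inl hab
    · exact Or.inr ((Nat.coprime_primes ha hb).2 hab)
  obtain ⟨I, hIdef⟩ : ∃ I : ℕ → Qd t c → Prop, ∀ q z, I q z ↔ lat q (ρ q) z :=
    ⟨fun q z => lat q (ρ q) z, fun _ _ => Iff.rfl⟩
  have i1 := imprim U S pA pB I hC.le hC₂0
    (fun m hm => ⟨h3 m (hSM m hm), (he.prA _ (h1 m (hSM m hm))).1.pos,
      (he.prB _ (h2 m (hSM m hm))).1.pos⟩)
    (fun m hm m' hm' Z hZ => win_two' he hC hw
      (sm_prime (he.prB _ (h2 m (hSM m hm))).1 (Or.inr (h2 m (hSM m hm))))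
      (sm_prime (he.prB _ (h2 m' (hSM m' hm'))).1 (Or.inr (h2 m' (hSM m' hm'))))
      (hcop _ _ (he.prB _ (h2 m (hSM m hm))).1 (he.prB _ (h2 m' (hSM m' hm'))).1) hZ hIdef)
    (fibre_bound hR (fun m hm => ⟨h3 m (hSM m hm), (he.prA _ (h1 m (hSM m hm))).2.1,
      (he.prB _ (h2 m (hSM m hm))).1, (he.prB _ (h2 m (hSM m hm))).2.1, h4 m (hSM m hm),
      h5 m (hSM m hm)⟩)) D hDne hY
  have i2 := imprim U S pB pA I hC.le hC₂0
    (fun m hm => ⟨(h3 m (hSM m hm)).trans (mul_comm _ _), (he.prB _ (h2 m (hSM m hm))).1.pos,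
      (he.prA _ (h1 m (hSM m hm))).1.pos⟩)
    (fun m hm m' hm' Z hZ => win_two' he hC hw
      (sm_prime (he.prA _ (h1 m (hSM m hm))).1 (Or.inl (h1 m (hSM m hm))))
      (sm_prime (he.prA _ (h1 m' (hSM m' hm'))).1 (Or.inl (h1 m' (hSM m' hm'))))
      (hcop _ _ (he.prA _ (h1 m (hSM m hm))).1 (he.prA _ (h1 m' (hSM m' hm'))).1) hZ hIdef)
    (fibre_bound hR (fun m hm => ⟨(h3 m (hSM m hm)).trans (mul_comm _ _),
      (he.prB _ (h2 m (hSM m hm))).2.1, (he.prA _ (h1 m (hSM m hm))).1,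
      (he.prA _ (h1 m (hSM m hm))).2.1, h5 m (hSM m hm), h4 m (hSM m hm)⟩)) D hDne hY
  have i3 := imprim U S (fun m => m) (fun _ => 1) I hC.le hC₂0
    (fun m hm => ⟨(mul_one m).symm, (ele_facts he (hSM m hm)).2.2.1, le_rfl⟩)
    (fun m hm m' hm' Z hZ => win_two' he hC hw sm_one sm_one (Or.inl rfl) hZ hIdef)
    (by
      intro m hm
      rw [Finset.filter_eq' S m, if_pos hm, Finset.sum_singleton]
      simpa using hC₂) D hDne hY
  rw [← hK₀] at i1 i2 i3
  rw [hWS] at i1 i2 i3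
  set W : ℝ := ∑ v ∈ Ico v₀ v₁, mE M H v with hW
  -- pointwise
  set β : ℕ → ℕ → Qd t c → ℝ := fun n n' z =>
    if z ∈ win η (Y / (n : ℝ) ^ 2) ∧ I n' z then 1 / (n : ℝ) ^ 2 else 0 with hβ
  have hβ0 : ∀ n n' z, 0 ≤ β n n' z := by
    intro n n' z
    simp only [hβ]
    split_ifs <;> positivity
  have hpt : ∀ z ∈ D, |dB g M ϖ H v₀ v₁ Y z| ≤ ∑ m ∈ S, β (pA m) (pB m) z +
      ∑ m ∈ S, β (pB m) (pA m) z + ∑ m ∈ S, β m 1 z := by
    intro z hz
    have hz0 := hDfd z hz
    rw [← Finset.sum_add_distrib, ← Finset.sum_add_distrib, hS, Finset.sum_biUnion hdisj]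
    unfold dB
    refine (Finset.abs_sum_le_sum_abs _ _).trans (Finset.sum_le_sum fun v _ => ?_)
    refine (Finset.abs_sum_le_sum_abs _ _).trans (Finset.sum_le_sum fun m hm => ?_)
    obtain ⟨hmM, -, -⟩ := cellM_facts hm
    obtain ⟨hSm, -, -, -⟩ := ele_facts he hmM
    have hA := h1 m hmM
    have hB := h2 m hmM
    have hAp := (he.prA _ hA).1
    have hBp := (he.prB _ hB).1
    have hm3 := h3 m hmM
    have hne : pA m ≠ pB m := by
      intro h
      rw [← h] at hB
      exact he.disj _ hA hB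
    have hqA : ¬ (pA m) ^ 2 ∣ m := by
      intro h
      have h' := h.trans (dvd_of_eq hm3)
      rw [sq] at h'
      have := Nat.dvd_of_mul_dvd_mul_left hAp.pos h'
      exact hne ((Nat.prime_dvd_prime_iff_eq hAp hBp).1 this)
    have hqB : ¬ (pB m) ^ 2 ∣ m := by
      intro h
      have h' := h.trans (dvd_of_eq hm3)
      rw [sq] at h'
      have := Nat.dvd_of_mul_dvd_mul_right hBp.pos h'
      exact hne ((Nat.prime_dvd_prime_iff_eq hBp hAp).1 this).symm
    set F : ℕ → ℝ := fun n => if ∃ u : Qd t c, prim u ∧ ϖ m * u = (n : Qd t c) * z then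
      Vg g m n (Real.log Y - (v : ℝ) / H) z else 0 with hF
    have e1 : |∑ n ∈ m.divisors.erase 1, F n| ≤ |F (pA m)| + |F (pB m)| + |F m| := by
      have := erase_sum_le hAp hBp hne F
      rw [← hm3] at this
      exact this
    refine e1.trans ?_
    refine add_le_add (add_le_add ?_ ?_) ?_
    · exact dB_term hg U hH hm hAp.ne_zero hY hz0 (fun u hu => (hIdef _ _).2
        (lat_of_content U he hmM hSm hBp (Or.inr hB) hAp.ne_zero (by rw [← hm3]) hqB hu))
    · exact dB_term hg U hH hm hBp.ne_zero hY hz0 (fun u hu => (hIdef _ _).2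
        (lat_of_content U he hmM hSm hAp (Or.inl hA) hBp.ne_zero
          (by rw [mul_comm, ← hm3]) hqA hu))
    · refine dB_term hg U hH hm hSm.1 hY hz0 (fun u _ => (hIdef _ _).2 ?_)
      unfold lat
      simp
  have hsq : ∀ z ∈ D, Y * (dB g M ϖ H v₀ v₁ Y z) ^ 2 / (nm z : ℝ) ^ 2 ≤
      3 * (Y * (∑ m ∈ S, β (pA m) (pB m) z) ^ 2 / (nm z : ℝ) ^ 2) +
      3 * (Y * (∑ m ∈ S, β (pB m) (pA m) z) ^ 2 / (nm z : ℝ) ^ 2) +
      3 * (Y * (∑ m ∈ S, β m 1 z) ^ 2 / (nm z : ℝ) ^ 2) := by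
    intro z hz
    have hN : (0 : ℝ) < nm z := nm_posR U.disc (hDne z hz)
    have e1 := pow_le_pow_left₀ (abs_nonneg _) (hpt z hz) 2
    rw [sq_abs] at e1
    set a := ∑ m ∈ S, β (pA m) (pB m) z
    set b := ∑ m ∈ S, β (pB m) (pA m) z
    set d := ∑ m ∈ S, β m 1 z
    have e2 : (a + b + d) ^ 2 ≤ 3 * a ^ 2 + 3 * b ^ 2 + 3 * d ^ 2 := by
      nlinarith [sq_nonneg (a - b), sq_nonneg (a - d), sq_nonneg (b - d)]
    have e3 : 3 * (Y * a ^ 2 / (nm z : ℝ) ^ 2) + 3 * (Y * b ^ 2 / (nm z : ℝ) ^ 2) +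
        3 * (Y * d ^ 2 / (nm z : ℝ) ^ 2) =
        Y * (3 * a ^ 2 + 3 * b ^ 2 + 3 * d ^ 2) / (nm z : ℝ) ^ 2 := by ring
    rw [e3]
    apply div_le_div_of_nonneg_right _ (by positivity)
    exact mul_le_mul_of_nonneg_left (e1.trans e2) hY.le
  refine (Finset.sum_le_sum hsq).trans ?_
  rw [Finset.sum_add_distrib, Finset.sum_add_distrib, ← Finset.mul_sum, ← Finset.mul_sum,
    ← Finset.mul_sum]
  linarith

theorem dec_of (hg : Pm g) (U : Un t c η) (_hlat : S_LAT t c η) (hI : S_LATI t c η)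
    (hTK : S_TK t c η) : S_DEC g η := by
  classical
  intro Ap Bp M E ρ ϖ he
  obtain ⟨Cw, hCw, hwin0⟩ := win_lat U hI
  have hwin : ∀ Z : ℝ, 0 < Z → ∑ z ∈ win η Z, 1 / (nm z : ℝ) ≤ Cw := by
    intro Z hZ
    have h1 := hwin0 1 0 le_rfl (by simp) Z hZ
    have h2 : (win η Z).filter (lat 1 0) = win η Z := by
      rw [Finset.filter_true_of_mem]
      intro z _
      unfold lat
      simp
    rw [h2] at h1
    simpa using h1
  obtain ⟨C, hC, htk⟩ := hTK Ap Bp M E ρ ϖ he
  obtain ⟨K, hK, hBm⟩ := dB_mean hg U hI he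
  refine ⟨2 * (Real.exp 2 * (6 * C + 4 * Cw)) + 2 * K, by positivity, ?_⟩
  intro H v₀ v₁ hH hHv hW Y hexp
  set W : ℝ := ∑ v ∈ Ico v₀ v₁, mE M H v with hWdef
  have hY : 1 ≤ Y := by
    refine le_trans ?_ hexp
    rw [← Real.exp_zero]
    apply Real.exp_le_exp.mpr; positivity
  have hY0 : 0 < Y := by linarith
  have hH0 : (0:ℝ) < H := by exact_mod_cast hH
  have hH1 : (1:ℝ) ≤ H := by exact_mod_cast hH
  have hW0 : 0 < W := by linarith
  have hWc : (W : ℂ) ≠ 0 := by exact_mod_cast hW0.ne'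
  set S : Finset ℕ := (Ico v₀ v₁).biUnion (cellM M H) with hS
  have hdisj : Set.PairwiseDisjoint (↑(Ico v₀ v₁) : Set ℕ) (cellM M H) := by
    intro v _ v' _ hne
    rw [Function.onFun, Finset.disjoint_left]
    intro p hp hp'
    exact hne (cellM_disj hH hp hp')
  have hWS : ∑ m ∈ S, 1 / (m : ℝ) = W := by
    rw [hS, Finset.sum_biUnion hdisj, hWdef]; rfl
  have hSm : ∀ m ∈ S, M m ∧ (m : ℝ) ≤ Real.exp ((v₁ : ℝ) / H) := by
    intro m hm
    rw [hS, mem_biUnion] at hm
    obtain ⟨v, hv, hm⟩ := hm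
    obtain ⟨h1, h3, h4⟩ := cellM_facts hm
    refine ⟨h1, ?_⟩
    have hm0 : (0:ℝ) < m := by
      have := (ele_facts he h1).2.2.1
      exact_mod_cast this
    rw [← Real.log_le_iff_le_exp hm0]
    refine h4.le.trans ?_
    apply div_le_div_of_nonneg_right _ hH0.le
    have := (mem_Ico.mp hv).2
    exact_mod_cast this
  have hTK := htk S (Real.exp ((v₁ : ℝ) / H)) Y hSm
    (by rw [hWS]; exact hW) (by
    rw [← Real.exp_nat_mul]
    refine le_trans (le_of_eq ?_) hexp
    congr 1; push_cast; ring)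
  rw [hWS] at hTK
  set D := pball η (Real.exp 2 * Y) with hDdef
  refine ⟨D, fun z => ((((g (nm z) : ℝ) * (w (Real.log (nm z) - Real.log Y) -
      dT M ϖ H v₀ v₁ Y z / W) - dB g M ϖ H v₀ v₁ Y z / W) / nm z : ℝ) : ℂ), ?_, ?_, ?_⟩
  · intro z hz
    exact hz
  · intro k
    rw [sum_eq hg U he hH hY0 k, GG_eq U hY0 k]
    unfold DPG
    rw [neg_mul_neg, Finset.mul_sum, ← Finset.sum_add_distrib]
    refine Finset.sum_congr rfl fun z hz => ?_
    rw [U.mem_pball] at hz
    have hzc : ((nm z : ℕ) : ℂ) ≠ 0 := by exact_mod_cast (nm_posR U.disc hz.1.1).ne'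
    push_cast
    field_simp
    ring
  · rw [Finset.mul_sum]
    -- pointwise bound
    have hpt : ∀ z ∈ D, Y * ‖((((g (nm z) : ℝ) * (w (Real.log (nm z) - Real.log Y) -
        dT M ϖ H v₀ v₁ Y z / W) - dB g M ϖ H v₀ v₁ Y z / W) / nm z : ℝ) : ℂ)‖ ^ 2 ≤
        2 * (if z ∈ win η Y then Real.exp 2 *
          ((2 / W ^ 2 + 4 / (H ^ 2 * W ^ 2)) *
          ((((S.filter (fun m => ϖ m ∣ z)).card : ℝ) - W) ^ 2 / nm z) +
          4 / H ^ 2 * (1 / nm z)) else 0) +
        2 * (1 / W ^ 2 * (Y * (dB g M ϖ H v₀ v₁ Y z) ^ 2 / (nm z : ℝ) ^ 2)) := by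
      intro z hz
      rw [hDdef, U.mem_pball] at hz
      have hN := nm_posR U.disc hz.1.1
      rw [Complex.norm_real, Real.norm_eq_abs, sq_abs, div_pow]
      set N : ℝ := (nm z : ℝ) with hNd
      set x : ℝ := w (Real.log N - Real.log Y) with hx
      set T : ℝ := dT M ϖ H v₀ v₁ Y z with hTd
      set B : ℝ := dB g M ϖ H v₀ v₁ Y z with hBd
      have hg2 : (g (nm z) : ℝ) ^ 2 = 1 := by
        rcases hg.val (nm z) with h | h <;> rw [h] <;> norm_num
      have hsplit : ((g (nm z) : ℝ) * (x - T / W) - B / W) ^ 2 ≤ 2 * (x - T / W) ^ 2 +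
          2 * (1 / W ^ 2 * B ^ 2) := by
        have h1 : ((g (nm z) : ℝ) * (x - T / W) - B / W) ^ 2 ≤ 2 * ((g (nm z) : ℝ) * (x - T / W)) ^ 2 +
            2 * (B / W) ^ 2 := by
          nlinarith [sq_nonneg ((g (nm z) : ℝ) * (x - T / W) + B / W)]
        have h2 : ((g (nm z) : ℝ) * (x - T / W)) ^ 2 = (x - T / W) ^ 2 := by
          rw [mul_pow, hg2, one_mul]
        have h3 : (B / W) ^ 2 = 1 / W ^ 2 * B ^ 2 := by rw [div_pow]; ring
        rw [h3, h2] at h1
        exact h1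
      have hmain1 : Y / N ^ 2 * (x - T / W) ^ 2 ≤ if z ∈ win η Y then Real.exp 2 *
          ((2 / W ^ 2 + 4 / (H ^ 2 * W ^ 2)) *
          ((((S.filter (fun m => ϖ m ∣ z)).card : ℝ) - W) ^ 2 / N) +
          4 / H ^ 2 * (1 / N)) else 0 := by
        by_cases hwin' : z ∈ win η Y
        · rw [if_pos hwin']
          set om : ℝ := ((S.filter (fun m => ϖ m ∣ z)).card : ℝ) with hom'
          have hom : om = ∑ v ∈ Ico v₀ v₁, ∑ m ∈ cellM M H v,
              if ϖ m ∣ z then (1 : ℝ) else 0 := by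
            rw [hom', Finset.card_filter]
            push_cast
            rw [hS, Finset.sum_biUnion hdisj]
          have hT : |om * x - T| ≤ om / H := by
            have e1 : om * x - T = ∑ v ∈ Ico v₀ v₁, ∑ m ∈ cellM M H v,
                (if ϖ m ∣ z then (x - w (Real.log N - Real.log Y -
                  (Real.log m - (v : ℝ) / H))) else 0) := by
              rw [hom, Finset.sum_mul, hTd]
              unfold dT
              rw [← Finset.sum_sub_distrib]
              refine Finset.sum_congr rfl fun v _ => ?_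
              rw [Finset.sum_mul, ← Finset.sum_sub_distrib]
              refine Finset.sum_congr rfl fun p _ => ?_
              split_ifs <;> simp [hNd]
            have e2 : om / H = ∑ v ∈ Ico v₀ v₁, ∑ m ∈ cellM M H v,
                (if ϖ m ∣ z then 1 / (H : ℝ) else 0) := by
              rw [hom, Finset.sum_div]
              refine Finset.sum_congr rfl fun v _ => ?_
              rw [Finset.sum_div]
              refine Finset.sum_congr rfl fun p _ => ?_
              split_ifs <;> simp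
            rw [e1, e2]
            refine (Finset.abs_sum_le_sum_abs _ _).trans (Finset.sum_le_sum fun v _ => ?_)
            refine (Finset.abs_sum_le_sum_abs _ _).trans (Finset.sum_le_sum fun p hp => ?_)
            obtain ⟨_, h2, h3⟩ := cellM_facts hp
            split_ifs with hd
            · refine (dec_w_lip _ _).trans ?_
              have e3 : Real.log N - Real.log Y -
                (Real.log N - Real.log Y - (Real.log p - (v : ℝ) / H)) =
                Real.log p - (v : ℝ) / H := by ring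
              rw [e3, abs_of_nonneg (by linarith)]
              have e4 : ((v : ℝ) + 1) / H = (v : ℝ) / H + 1 / H := by ring
              linarith
            · simp
          have hr := dec_real hW hH1 (dec_w_nonneg (Real.log N - Real.log Y))
            (dec_w_le (Real.log N - Real.log Y)) (by positivity : 0 ≤ om) hT
          have hYN : Y / N ≤ Real.exp 2 := by
            rw [U.mem_win] at hwin'
            rw [div_le_iff₀ hN]
            have := hwin'.2.1
            rw [div_le_iff₀ (Real.exp_pos 2)] at this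
            linarith
          calc Y / N ^ 2 * (x - T / W) ^ 2 = (Y / N) * ((1 / N) * (x - T / W) ^ 2) := by
                field_simp
            _ ≤ Real.exp 2 * ((1 / N) * (x - T / W) ^ 2) :=
                mul_le_mul_of_nonneg_right hYN (by positivity)
            _ ≤ Real.exp 2 * ((1 / N) * (2 * ((om - W) ^ 2 / W ^ 2 +
                  (2 * (om - W) ^ 2 + 2 * W ^ 2) / ((H : ℝ) ^ 2 * W ^ 2)))) := by
                apply mul_le_mul_of_nonneg_left _ (Real.exp_pos 2).le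
                exact mul_le_mul_of_nonneg_left hr (by positivity)
            _ = _ := by field_simp; ring
        · rw [if_neg hwin']
          have hlt : N < Y / Real.exp 2 := by
            by_contra hcon
            rw [not_lt] at hcon
            apply hwin'
            rw [U.mem_win]
            exact ⟨hz.1, hcon, hz.2.2⟩
          have hll := Real.log_lt_log hN hlt
          rw [Real.log_div hY0.ne' (Real.exp_pos 2).ne', Real.log_exp] at hll
          have hx0 : x = 0 := by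
            rw [hx]
            apply dec_w_zero
            rw [abs_of_neg (by linarith)]; linarith
          have hT0 : T = 0 := by
            rw [hTd]
            unfold dT
            refine Finset.sum_eq_zero fun v _ => Finset.sum_eq_zero fun p hp => ?_
            obtain ⟨_, h2, h3⟩ := cellM_facts hp
            split_ifs
            · apply dec_w_zero
              rw [abs_of_neg (by linarith)]; linarith
            · rfl
          rw [hx0, hT0]
          simp
      calc Y * (((g (nm z) : ℝ) * (x - T / W) - B / W) ^ 2 / N ^ 2)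
          = Y / N ^ 2 * ((g (nm z) : ℝ) * (x - T / W) - B / W) ^ 2 := by ring
        _ ≤ Y / N ^ 2 * (2 * (x - T / W) ^ 2 + 2 * (1 / W ^ 2 * B ^ 2)) :=
            mul_le_mul_of_nonneg_left hsplit (by positivity)
        _ = 2 * (Y / N ^ 2 * (x - T / W) ^ 2) + 2 * (1 / W ^ 2 * (Y * B ^ 2 / N ^ 2)) := by ring
        _ ≤ _ := by
            apply add_le_add _ le_rfl
            exact mul_le_mul_of_nonneg_left hmain1 (by norm_num)
    refine (Finset.sum_le_sum hpt).trans ?_
    rw [Finset.sum_add_distrib, ← Finset.mul_sum, ← Finset.mul_sum, ← Finset.mul_sum]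
    -- first sum
    have hs1 : (∑ z ∈ D, if z ∈ win η Y then Real.exp 2 *
          ((2 / W ^ 2 + 4 / (H ^ 2 * W ^ 2)) *
          ((((S.filter (fun m => ϖ m ∣ z)).card : ℝ) - W) ^ 2 / nm z) +
          4 / H ^ 2 * (1 / nm z)) else 0) ≤
        Real.exp 2 * (6 * C + 4 * Cw) * (1 / W + 1 / (H : ℝ) ^ 2) := by
      have h1 : (∑ z ∈ D, if z ∈ win η Y then Real.exp 2 *
          ((2 / W ^ 2 + 4 / (H ^ 2 * W ^ 2)) *
          ((((S.filter (fun m => ϖ m ∣ z)).card : ℝ) - W) ^ 2 / nm z) +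
          4 / H ^ 2 * (1 / nm z)) else 0) ≤
          ∑ z ∈ win η Y, Real.exp 2 *
          ((2 / W ^ 2 + 4 / (H ^ 2 * W ^ 2)) *
          ((((S.filter (fun m => ϖ m ∣ z)).card : ℝ) - W) ^ 2 / nm z) +
          4 / H ^ 2 * (1 / nm z)) := by
        rw [← Finset.sum_filter]
        refine Finset.sum_le_sum_of_subset_of_nonneg ?_ ?_
        · intro z hz
          exact (mem_filter.1 hz).2
        · intro z _ _
          positivity
      refine h1.trans ?_
      rw [← Finset.mul_sum, Finset.sum_add_distrib, ← Finset.mul_sum, ← Finset.mul_sum, mul_assoc]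
      apply mul_le_mul_of_nonneg_left _ (Real.exp_pos 2).le
      have hinv := hwin Y hY0
      have hTK' : ∑ z ∈ win η Y, (((S.filter (fun m => ϖ m ∣ z)).card : ℝ) - W) ^ 2 /
          (nm z : ℝ) ≤ C * W := hTK
      have hc : 0 ≤ 2 / W ^ 2 + 4 / ((H : ℝ) ^ 2 * W ^ 2) := by positivity
      calc (2 / W ^ 2 + 4 / ((H : ℝ) ^ 2 * W ^ 2)) *
            ∑ z ∈ win η Y, (((S.filter (fun m => ϖ m ∣ z)).card : ℝ) - W) ^ 2 / (nm z : ℝ) +
            4 / (H : ℝ) ^ 2 * ∑ z ∈ win η Y, (1 : ℝ) / (nm z : ℝ)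
          ≤ (2 / W ^ 2 + 4 / ((H : ℝ) ^ 2 * W ^ 2)) * (C * W) + 4 / (H : ℝ) ^ 2 * Cw := by
            apply add_le_add
            · exact mul_le_mul_of_nonneg_left hTK' hc
            · exact mul_le_mul_of_nonneg_left hinv (by positivity)
        _ ≤ (6 / W ^ 2) * (C * W) + 4 / (H : ℝ) ^ 2 * Cw := by
            have h6 : 4 / ((H : ℝ) ^ 2 * W ^ 2) ≤ 4 / W ^ 2 := by
              apply div_le_div_of_nonneg_left (by norm_num) (by positivity)
              have : (1:ℝ) ≤ (H : ℝ) ^ 2 := by nlinarith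
              nlinarith [sq_nonneg W]
            have h7 : 2 / W ^ 2 + 4 / ((H : ℝ) ^ 2 * W ^ 2) ≤ 6 / W ^ 2 := by
              have : (6:ℝ) / W ^ 2 = 2 / W ^ 2 + 4 / W ^ 2 := by ring
              linarith
            have := mul_le_mul_of_nonneg_right h7 (by positivity : 0 ≤ C * W)
            linarith
        _ = 6 * C * (1 / W) + 4 * Cw * (1 / (H : ℝ) ^ 2) := by
            field_simp
        _ ≤ 6 * C * (1 / W) + 4 * Cw * (1 / (H : ℝ) ^ 2) +
              (6 * C * (1 / (H : ℝ) ^ 2) + 4 * Cw * (1 / W)) := by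
            have h1 : 0 ≤ 6 * C * (1 / (H : ℝ) ^ 2) := by positivity
            have h2 : 0 ≤ 4 * Cw * (1 / W) := by positivity
            exact le_add_of_nonneg_right (add_nonneg h1 h2)
        _ = (6 * C + 4 * Cw) * (1 / W + 1 / (H : ℝ) ^ 2) := by ring
    -- second sum
    have hs2 := hBm H v₀ v₁ hH Y hY0
    rw [← hWdef, ← hDdef] at hs2
    calc _ ≤ 2 * (Real.exp 2 * (6 * C + 4 * Cw) * (1 / W + 1 / (H : ℝ) ^ 2)) +
          2 * (1 / W ^ 2 * (K * W)) := by
          apply add_le_add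
          · exact mul_le_mul_of_nonneg_left hs1 (by norm_num)
          · apply mul_le_mul_of_nonneg_left _ (by norm_num)
            exact mul_le_mul_of_nonneg_left hs2 (by positivity)
      _ = 2 * (Real.exp 2 * (6 * C + 4 * Cw)) * (1 / W + 1 / (H : ℝ) ^ 2) +
          2 * K * (1 / W) := by
          field_simp
      _ ≤ 2 * (Real.exp 2 * (6 * C + 4 * Cw)) * (1 / W + 1 / (H : ℝ) ^ 2) +
          2 * K * (1 / W) + 2 * K * (1 / (H : ℝ) ^ 2) := by
          have h1 : 0 ≤ 2 * K * (1 / (H : ℝ) ^ 2) := by positivity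
          exact le_add_of_nonneg_right h1
      _ = _ := by ring

end Pool.Agent.W125.GS.R
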